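import Mathlib

/-!
# MP_ab148e_al (frozen S02649): T(G × G) < T(G).  Definitions of the combinatorial half (room R7)

Lines are left cosets `g⟨a⟩`.  A claw is `(g, x) : G × G2`; with `e 0 = 1, e 1 = b, e 2 = c` and
`f 0 = 1, f 1 = b2, f 2 = c2` it touches the nodes `(g (e i) ⟨a⟩, x (f i))`, `i : Fin 3`.
-/

namespace TSq

variable {G G2 : Type} [Group G] [Group G2]

/-- the lines of `a`: left cosets of `⟨a⟩` -/
abbrev Ln (a : G) : Type := G ⧸ Subgroup.zpowers a

/-- the line through `g` -/
def ln (a : G) (g : G) : Ln a := QuotientGroup.mk g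

/-- the `i`-th node of the claw `p = (g, x)` -/
def nd (a : G) (e : Fin 3 → G) (f : Fin 3 → G2) (p : G × G2) (i : Fin 3) : Ln a × G2 :=
  (ln a (p.1 * e i), p.2 * f i)

/-- nodes touched by a finite set of claws, after the map `π` -/
noncomputable def nb {M : Type} (a : G) (e : Fin 3 → G) (f : Fin 3 → G2) (π : Ln a × G2 → M)
    (F : Finset (G × G2)) : Finset M := by
  classical
  exact F.biUnion fun p => Finset.univ.image fun i => π (nd a e f p i)

/-- identification of the three lines of `P`, in every fibre `x` -/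
noncomputable def wd {a : G} (P : Fin 3 → Ln a) (n : Ln a × G2) : Ln a × G2 := by
  classical
  exact if n.1 ∈ Set.range P then (P 0, n.2) else n

/-- Hall condition with ratio `κ` -/
def HallR (a : G) (e : Fin 3 → G) (f : Fin 3 → G2) (κ : ℚ) : Prop :=
  ∀ F : Finset (G × G2), κ * F.card ≤ (nb a e f id F).card

/-- The invariant: Hall condition with ratio `κ` after identification of any three lines
(repetitions allowed). -/
def WW (a : G) (e : Fin 3 → G) (f : Fin 3 → G2) (κ : ℚ) : Prop :=
  ∀ P : Fin 3 → Ln a, ∀ F : Finset (G × G2), κ * F.card ≤ (nb a e f (wd P) F).card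

/-- the triple `(x; y, z)` fails: some finite `F` meets fewer than `|F|` lines of `x` with
`F ∪ F y ∪ F z` -/
def Fails (x y z : G) : Prop := by
  classical
  exact ∃ F : Finset G,
    (F.image (ln x) ∪ F.image (fun g => ln x (g * y)) ∪ F.image (fun g => ln x (g * z))).card
      < F.card

/-- no paradoxical decomposition with at most `n` pieces (frozen form) -/
def Parad (G : Type) [Group G] (n : ℕ) : Prop :=
  ∃ (k l : ℕ) (A : Fin k → Set G) (B : Fin l → Set G) (g : Fin k → G) (h : Fin l → G),
    k + l ≤ n ∧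
    Pairwise (fun i j => Disjoint (A i) (A j)) ∧
    Pairwise (fun i j => Disjoint (B i) (B j)) ∧
    (∀ i j, Disjoint (A i) (B j)) ∧
    (⋃ i, (fun x => g i * x) '' A i) = Set.univ ∧
    (⋃ j, (fun x => h j * x) '' B j) = Set.univ

/-- `⟨a⟩` is malnormal -/
def Maln (a : G) : Prop :=
  ∀ g : G, ∀ m n : ℤ, m ≠ 0 → g * a ^ m * g⁻¹ = a ^ n → g ∈ Subgroup.zpowers a

end TSq
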